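import Pool.Agent.Results.MP_b7d0e6_al.BykSqrtThree
import Pool.Agent.Y212.BK.Fields

/-!
# The generalized Bykovskii presentation fails for `ℚ(√p)`, `p` a prime with `p % 8 = 3`

For `p = 3` the ring of integers is Euclidean and additively generated by its units.
-/

set_option autoImplicit false

open scoped NumberField
open Pool.Agent.H741R3.Byk Pool.Agent.Y212.BK
open Pool.Agent.Results.MP_b7d0e6_al.BykSqrtThree

/-- (1) a criterion for every commutative ring `O` with two real places at which each unit has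
equal signs; (2) the rings of integers of the fields `ℚ(√p)` for all primes `p` congruent to `3`
modulo `8`; (3) for `p = 3` the ring is Euclidean and generated by its units. In all cases the
kernel of `Byk_2(O) → St_2(K)` has an element of infinite order. -/
theorem Pool.Agent.Results.MP_b7d0e6_al.PrimesThreeModEight.result :
    (∀ (O : Type) [CommRing O] (K : Type) [Field K] [Algebra O K] (f g : O →+* ℝ),
      (∀ u : Oˣ, 0 < f u * g u) →
      (∃ (a b : O) (w : Oˣ), a * b = 1 + w ∧ 0 < f w ∧ 0 < f a ∧ g a < 0) →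
        KernelHasInfiniteOrder O K) ∧
    (∀ p : ℕ, p.Prime → p % 8 = 3 →
      ∃ (K : Type) (_ : Field K) (_ : NumberField K),
        (∃ s : K, s ^ 2 = p ∧ IntermediateField.adjoin ℚ {s} = ⊤) ∧
        KernelHasInfiniteOrder (𝓞 K) K ∧
        ¬ Function.Injective (bykToSteinberg (𝓞 K) K 2)) ∧
    (∃ (K : Type) (_ : Field K) (_ : NumberField K),
      (∃ s : K, s ^ 2 = 3 ∧ IntermediateField.adjoin ℚ {s} = ⊤) ∧
      IsEuclideanRing (𝓞 K) ∧ GeneratedByUnits (𝓞 K) ∧
      KernelHasInfiniteOrder (𝓞 K) K ∧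
      ¬ Function.Injective (bykToSteinberg (𝓞 K) K 2)) := by
  refine ⟨?_, ?_, ?_⟩
  · intro O _ K _ _ f g hu h
    obtain ⟨a, b, w, hab, hw, hf, hg⟩ := h
    exact criterion K f g hu a b w hab hw hf hg
  · intro p hp h8
    haveI : Fact p.Prime := ⟨hp⟩
    refine ⟨Pool.Agent.Y212.BK.F p, inferInstance, inferInstance,
      ⟨⟨0, 1⟩, ?_, Pool.Agent.Y212.BK.adjoin_eq_top p⟩, fails p h8, (fails p h8).not_injective⟩
    rw [pow_two]
    ext <;> simp
  · have hk : KernelHasInfiniteOrder (𝓞 BykSqrtThree.F) BykSqrtThree.F := by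
      refine criterion BykSqrtThree.F re₁ re₂ BykSqrtThree.unit_sign
        (BykSqrtThree.elt 1 1) (BykSqrtThree.elt (-1) 1) 1 ?_ ?_ ?_ ?_
      · rw [BykSqrtThree.elt_mul, Units.val_one, ← BykSqrtThree.elt_one, BykSqrtThree.elt_add]
        norm_num
      · rw [Units.val_one, map_one]; norm_num
      · rw [re₁_elt]
        push_cast
        positivity
      · rw [re₂_elt]
        have := BykSqrtThree.sqrt_mul
        have h0 : (0 : ℝ) ≤ √3 := Real.sqrt_nonneg 3
        push_cast
        nlinarith
    refine ⟨BykSqrtThree.F, inferInstance, inferInstance,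
      ⟨⟨0, 1⟩, ?_, BykSqrtThree.adjoin_eq_top⟩, isEuclideanRing, generatedByUnits, hk,
      hk.not_injective⟩
    rw [pow_two]
    ext
    · simp; rfl
    · simp; rfl
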