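import Pool.Agent.Results.MP_b7d0e6_al.BykSqrtThree
import Pool.Agent.Y511.BY.Gen
import Pool.Agent.Y511.BY.Fam

/-!
# The generalized Bykovskii presentation fails for `ℚ(√3)`, for `ℚ(√21)` and for infinitely many orders

Let `O` be a commutative ring with two real embeddings `f`, `g` such that every unit has the same sign
under `f` and `g`. If some element `q` of opposite signs under `f` and `g` divides `1 + w` for a unit
`w` which is positive under `f`, then the closed chain

`(1, 0), (0, 1), (1, q), (c, 1), (1, 0)`,  `c q = 1 + w`,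

of vectors of `O ^ 2` (consecutive ones form bases) gives an element of infinite order in the kernel of
`Byk_2(O) → St_2(K)`: it is detected by the difference of the two orientation cocycles of the starting
result, whose value is `± 4`.

* `O = ℤ[√3]`: `q = 1 + √3` divides `2 = 1 + 1`.
* The ring of integers of `ℚ(√21)` is `ℤ[ε]`, `ε ^ 2 = 5 ε - 1`; here `q = ε - 2` divides `1 + ε ^ 2`.
* More generally in `ℤ[ε]`, `ε ^ 2 = m ε - 1`, the element `q = ε - 2` divides `1 + ε ^ k` as soon as
  `2 m - 5` divides `2 ^ k + 1`; and all units have norm `1` if `m ≡ 2 (mod 3)`. All these rings are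
  additively generated by their units `± 1, ± ε`.
-/

set_option autoImplicit false

open scoped NumberField

namespace Pool.Agent.Results.MP_b7d0e6_al.SignCriterion

open Pool.Agent.H741R3.Byk
open Pool.Agent.Results.MP_b7d0e6_al.BykSqrtThree (IsEuclideanRing GeneratedByUnits)

/-- The kernel of `Byk_2(O) → St_2(K)` contains an element of infinite order. -/
def InfiniteOrderKernel (O : Type) [CommRing O] (K : Type) [Field K] [Algebra O K] : Prop :=
  ∃ x : BykGroup O 2, bykToSteinberg O K 2 x = 0 ∧ ∀ n : ℤ, n • x = 0 → n = 0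

/-- The ring `ℤ[ε]` with `ε ^ 2 = m ε - 1`, as the ring of pairs `(re, im)` standing for
`re + im ε`. -/
abbrev UnitRing (m : ℤ) : Type := QuadraticAlgebra ℤ (-1) m

theorem kernel_three : InfiniteOrderKernel (𝓞 BykSqrtThree.F) BykSqrtThree.F := by
  refine Pool.Agent.Y511.BY.criterion BykSqrtThree.F BykSqrtThree.re₁ BykSqrtThree.re₂
    BykSqrtThree.unit_sign 1 (BykSqrtThree.elt (-1) 1) (BykSqrtThree.elt 1 1) ?_ ?_ ?_
  · rw [Units.val_one, map_one]; norm_num
  · rw [Units.val_one, BykSqrtThree.elt_mul, ← BykSqrtThree.elt_one, BykSqrtThree.elt_add]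
    norm_num
  · rw [BykSqrtThree.re₁_elt, BykSqrtThree.re₂_elt]
    have h := BykSqrtThree.sqrt_mul
    push_cast
    nlinarith

/-- **The generalized Bykovskii presentation and signs of units.**

(1) Let `O` be a commutative ring, `f`, `g` two real embeddings with the same signs on all units. If
`c q = 1 + w` with a unit `w` positive under `f` and `f q`, `g q` of opposite signs, then the kernel of
`Byk_2(O) → St_2(K)` contains an element of infinite order, for every field `K` over `O`.

(2) For `K = ℚ(√3)` and for `K = ℚ(√21)` the ring of integers `𝓞 K` is Euclidean and additively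
generated by its units, but the kernel of `Byk_2(𝓞 K) → St_2(K)` contains an element of infinite order;
in particular the generalized Bykovskii presentation fails.

(3) The same is true for the rings `ℤ[ε]`, `ε ^ 2 = m ε - 1`, generated by units, if `m ≥ 4`,
`m ≡ 2 (mod 3)` and `2 m - 5` divides `2 ^ k + 1` for some `k`; (4) for example for all
`m = 2 ^ (2 i + 1) + 3`. -/
theorem result :
    (∀ (O : Type) [CommRing O] (K : Type) [Field K] [Algebra O K] (f g : O →+* ℝ),
      (∀ u : Oˣ, 0 < f u * g u) → ∀ (w : Oˣ) (c q : O), 0 < f w → c * q = 1 + w →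
        f q * g q < 0 → InfiniteOrderKernel O K) ∧
    (∀ d : ℕ, d = 3 ∨ d = 21 → ∃ (K : Type) (_ : Field K) (_ : NumberField K),
      (∃ s : K, s ^ 2 = (d : K) ∧ IntermediateField.adjoin ℚ {s} = ⊤) ∧
      IsEuclideanRing (𝓞 K) ∧ GeneratedByUnits (𝓞 K) ∧ InfiniteOrderKernel (𝓞 K) K ∧
      ¬ Function.Injective (bykToSteinberg (𝓞 K) K 2)) ∧
    (∀ (m : ℤ) (k : ℕ), 4 ≤ m → m % 3 = 2 → 2 * m - 5 ∣ 2 ^ k + 1 →
      GeneratedByUnits (UnitRing m) ∧
      ∀ (K : Type) [Field K] [Algebra (UnitRing m) K], InfiniteOrderKernel (UnitRing m) K) ∧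
    ∀ i : ℕ, 4 ≤ (2 ^ (2 * i + 1) + 3 : ℤ) ∧ (2 ^ (2 * i + 1) + 3 : ℤ) % 3 = 2 ∧
      2 * (2 ^ (2 * i + 1) + 3 : ℤ) - 5 ∣ 2 ^ (2 * i + 2) + 1 := by
  refine ⟨fun O _ K _ _ f g hu w c q hw hcq hq =>
    Pool.Agent.Y511.BY.criterion K f g hu w c q hw hcq hq, ?_, ?_, ?_⟩
  · rintro d (rfl | rfl)
    · refine ⟨BykSqrtThree.F, inferInstance, inferInstance, ⟨⟨0, 1⟩, ?_,
        BykSqrtThree.adjoin_eq_top⟩, BykSqrtThree.isEuclideanRing, BykSqrtThree.generatedByUnits,
        kernel_three, Pool.Agent.Y511.BY.not_injective_of kernel_three⟩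
      rw [pow_two]
      ext
      · simp; rfl
      · simp; rfl
    · exact ⟨Pool.Agent.Y511.BY.F21.F, inferInstance, inferInstance, ⟨⟨-5, 2⟩,
        by rw [Pool.Agent.Y511.BY.F21.root_sq]; norm_num,
        Pool.Agent.Y511.BY.F21.adjoin_eq_top⟩, Pool.Agent.Y511.BY.F21.euclid,
        Pool.Agent.Y511.BY.F21.generated, Pool.Agent.Y511.BY.F21.kernel,
        Pool.Agent.Y511.BY.not_injective_of Pool.Agent.Y511.BY.F21.kernel⟩
  · intro m k hm hm3 hk
    exact ⟨Pool.Agent.Y511.BY.Fam.generated, fun K _ _ =>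
      Pool.Agent.Y511.BY.Fam.kernel hm hm3 k hk K⟩
  · intro i
    have h4 : (2 : ℤ) ^ (2 * i + 1) = 2 * 4 ^ i := by
      rw [pow_succ, pow_mul]; norm_num; ring
    have h5 : (2 : ℤ) ^ (2 * i + 2) = 4 * 4 ^ i := by
      rw [pow_add, pow_mul]; norm_num; ring
    have h6 : ∀ i : ℕ, (4 : ℤ) ^ i % 3 = 1 := by
      intro i
      induction i with
      | zero => norm_num
      | succ i ih => rw [pow_succ]; omega
    have h7 : (1 : ℤ) ≤ 4 ^ i := one_le_pow₀ (by norm_num)
    have h8 := h6 i
    rw [h4, h5]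
    refine ⟨by omega, by omega, ⟨1, by ring⟩⟩

end Pool.Agent.Results.MP_b7d0e6_al.SignCriterion
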